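import Pool.Agent.R271.TsiUpper

set_option autoImplicit false

open Finset Pool.Agent.H825R3.Tsi Pool.Agent.R271.TsiUpper

namespace Pool.Agent.Results.MP_6d986f_an.TsirelsonKottman

/-- A set is `lam`-separated when any two distinct points of it lie at distance at least `lam`. -/
def IsSep {X : Type} [NormedAddCommGroup X] (lam : ℝ) (S : Set X) : Prop :=
  ∀ x ∈ S, ∀ y ∈ S, x ≠ y → lam ≤ ‖x - y‖

/-- The set of all `lam > 0` for which the closed unit ball of `X` contains an infinite
`lam`-separated set. -/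
def SepSet (X : Type) [NormedAddCommGroup X] : Set ℝ :=
  {lam : ℝ | 0 < lam ∧ ∃ S : Set X, S.Infinite ∧ (∀ x ∈ S, ‖x‖ ≤ 1) ∧ IsSep lam S}

/-- The separation constant `P(X)` of the unit ball. -/
noncomputable def sepConst (X : Type) [NormedAddCommGroup X] : ℝ := sSup (SepSet X)

section gen

variable {X : Type} [NormedAddCommGroup X]

lemma le_two_of_mem {lam : ℝ} (h : lam ∈ SepSet X) : lam ≤ 2 := by
  obtain ⟨_, S, hS, h1, h2⟩ := h
  obtain ⟨x, hx⟩ := hS.nonempty
  obtain ⟨y, hy, hyx⟩ := hS.exists_notMem_finset {x}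
  have hne : x ≠ y := by
    intro hxy
    exact hyx (by simp [hxy])
  calc lam ≤ ‖x - y‖ := h2 x hx y hy hne
    _ ≤ ‖x‖ + ‖y‖ := norm_sub_le x y
    _ ≤ 2 := by linarith [h1 x hx, h1 y hy]

end gen

variable {T : Type} [NormedAddCommGroup T] [NormedSpace ℝ T] {e : ℕ → T}

lemma norm_single_le (h : IsTsirelson T e) (i : ℕ) : ‖Lc e (Finsupp.single i (1 : ℝ))‖ ≤ 1 := by
  rw [h.norm_Lc]
  apply ENNReal.toReal_le_of_le_ofReal zero_le_one
  refine (rho_le_tsum _).trans ?_
  rw [tsum_Phi]
  refine (Finset.sum_le_sum_of_subset (Finsupp.support_single_subset)).trans ?_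
  simp

lemma pc_single (a b i : ℕ) : pc a b (Finsupp.single i (1 : ℝ)) =
    if a ≤ i ∧ i < b then Finsupp.single i (1 : ℝ) else 0 := by
  ext k
  rw [pc_apply]
  by_cases hk : i = k
  · subst hk
    split_ifs <;> simp
  · rw [Finsupp.single_eq_of_ne (by exact fun h => hk h.symm)]
    split_ifs <;> simp [hk]

lemma norm_pc_single_le (h : IsTsirelson T e) (a b i : ℕ) :
    ‖Lc e (pc a b (Finsupp.single i (1 : ℝ)))‖ ≤ if a ≤ i ∧ i < b then 1 else 0 := by
  rw [pc_single]
  split_ifs
  · exact norm_single_le h i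
  · simp

lemma sum_ind_le {t : ℕ → ℕ} (ht : Monotone t) (κ i : ℕ) :
    ∑ l ∈ range κ, (if t l ≤ i ∧ i < t (l + 1) then (1 : ℝ) else 0) ≤ 1 := by
  rw [← Finset.sum_filter]
  simp only [Finset.sum_const, nsmul_eq_mul, mul_one]
  have : ((range κ).filter fun l => t l ≤ i ∧ i < t (l + 1)).card ≤ 1 := by
    rw [Finset.card_le_one]
    intro l hl m hm
    rw [Finset.mem_filter] at hl hm
    rcases lt_trichotomy l m with hlm | hlm | hlm
    · have := ht (show l + 1 ≤ m by omega)
      omega
    · exact hlm
    · have := ht (show m + 1 ≤ l by omega)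
      omega
  exact_mod_cast this

lemma norm_pair_le (h : IsTsirelson T e) {i j : ℕ} (hij : i ≠ j) : ‖e i + e j‖ ≤ 1 := by
  have h1 : ‖Lc e (Finsupp.single i (1 : ℝ) + Finsupp.single j (1 : ℝ))‖ ≤ 1 := by
    refine norm_le_of h _ zero_le_one ?_ ?_
    · intro k
      rw [Finsupp.add_apply, Finsupp.single_apply, Finsupp.single_apply]
      by_cases h1 : i = k
      · by_cases h2 : j = k
        · exact absurd (h1.trans h2.symm) hij
        · simp [h1, h2]
      · by_cases h2 : j = k
        · simp [h1, h2]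
        · simp [h1, h2]
    · intro κ t ht hκ
      calc ∑ l ∈ range κ, ‖Lc e (pc (t l) (t (l + 1))
            (Finsupp.single i (1 : ℝ) + Finsupp.single j (1 : ℝ)))‖
          ≤ ∑ l ∈ range κ, ((if t l ≤ i ∧ i < t (l + 1) then (1 : ℝ) else 0) +
              (if t l ≤ j ∧ j < t (l + 1) then (1 : ℝ) else 0)) := by
            refine Finset.sum_le_sum fun l _ => ?_
            rw [map_add, map_add]
            exact (norm_add_le _ _).trans
              (add_le_add (norm_pc_single_le h _ _ _) (norm_pc_single_le h _ _ _))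
        _ ≤ 2 * 1 := by
            rw [Finset.sum_add_distrib]
            linarith [sum_ind_le ht κ i, sum_ind_le ht κ j]
  rw [map_add, Lc_single, Lc_single, one_smul, one_smul] at h1
  exact h1

/-- The point `e_i + e_{i+1}` with `i = 2 k + 4`. -/
noncomputable def pt (e : ℕ → T) (k : ℕ) : T := e (2 * k + 4) + e (2 * k + 5)

lemma norm_pt_le (h : IsTsirelson T e) (k : ℕ) : ‖pt e k‖ ≤ 1 :=
  norm_pair_le h (by omega)

/-- The finitely supported sequence of `pt k - pt l`. -/
noncomputable def df (k l : ℕ) : ℕ →₀ ℝ :=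
  (Finsupp.single (2 * k + 4) 1 + Finsupp.single (2 * k + 5) 1) -
    (Finsupp.single (2 * l + 4) 1 + Finsupp.single (2 * l + 5) 1)

lemma Lc_df (k l : ℕ) : Lc e (df k l) = pt e k - pt e l := by
  unfold df pt
  rw [map_sub, map_add, map_add]
  simp only [Lc_single, one_smul]

lemma two_le (h : IsTsirelson T e) {k l : ℕ} (hkl : k < l) : 2 ≤ ‖pt e k - pt e l‖ := by
  rw [← Lc_df]
  let q : ℕ → ℕ := fun i => if i = 0 then 2 * k + 4 else if i = 1 then 2 * k + 5 else
    if i = 2 then 2 * l + 4 else 2 * l + 5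
  have h1 := h.adm_le' (df k l) 4 (fun i => {q i})
    (by
      intro i hi a ha
      rw [Finset.mem_singleton] at ha
      subst ha
      simp only [q]
      split_ifs <;> omega)
    (by
      intro i j hij hj a ha b hb
      rw [Finset.mem_singleton] at ha hb
      subst ha hb
      simp only [q]
      split_ifs <;> omega)
  have h2 : ∀ i < 4, 1 ≤ ‖comb e (restr {q i} (df k l))‖ := by
    intro i hi
    have h3 := h.coord_le (restr {q i} (df k l)) (q i)
    refine le_trans ?_ h3
    have h4 : restr {q i} (df k l) (q i) = df k l (q i) := by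
      rw [restr, Finsupp.filter_apply_pos]
      simp
    rw [h4]
    unfold df
    simp only [Finsupp.sub_apply, Finsupp.add_apply, Finsupp.single_apply]
    have h5 : i = 0 ∨ i = 1 ∨ i = 2 ∨ i = 3 := by omega
    rcases h5 with rfl | rfl | rfl | rfl
    · have e1 : q 0 = 2 * k + 4 := rfl
      rw [e1, if_pos rfl, if_neg (by omega), if_neg (by omega), if_neg (by omega)]
      norm_num
    · have e1 : q 1 = 2 * k + 5 := rfl
      rw [e1, if_neg (by omega), if_pos rfl, if_neg (by omega), if_neg (by omega)]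
      norm_num
    · have e1 : q 2 = 2 * l + 4 := rfl
      rw [e1, if_neg (by omega), if_neg (by omega), if_pos rfl, if_neg (by omega)]
      norm_num
    · have e1 : q 3 = 2 * l + 5 := rfl
      rw [e1, if_neg (by omega), if_neg (by omega), if_neg (by omega), if_pos rfl]
      norm_num
  have h6 : (4 : ℝ) ≤ ∑ i ∈ range 4, ‖comb e (restr {q i} (df k l))‖ := by
    calc (4 : ℝ) = ∑ i ∈ range 4, (1 : ℝ) := by simp
      _ ≤ _ := Finset.sum_le_sum fun i hi => h2 i (Finset.mem_range.1 hi)
  have h7 : Lc e (df k l) = comb e (df k l) := rfl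
  rw [h7]
  linarith

lemma sep_pt (h : IsTsirelson T e) {k l : ℕ} (hkl : k ≠ l) : 2 ≤ ‖pt e k - pt e l‖ := by
  rcases lt_or_gt_of_ne hkl with h1 | h1
  · exact two_le h h1
  · rw [norm_sub_rev]
    exact two_le h h1

lemma pt_injective (h : IsTsirelson T e) : Function.Injective (pt e) := by
  intro k l hkl
  by_contra hne
  have := sep_pt h hne
  rw [hkl, sub_self, norm_zero] at this
  linarith

/-- The unit ball of Tsirelson space contains an infinite `2`-separated set. -/
lemma two_mem (h : IsTsirelson T e) : (2 : ℝ) ∈ SepSet T := by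
  refine ⟨two_pos, Set.range (pt e), Set.infinite_range_of_injective (pt_injective h), ?_, ?_⟩
  · rintro _ ⟨k, rfl⟩
    exact norm_pt_le h k
  · rintro _ ⟨k, rfl⟩ _ ⟨l, rfl⟩ hne
    exact sep_pt h fun hkl => hne (by rw [hkl])

/-- **The separation constant of the unit ball of Tsirelson space is `2`, and it is attained.**

Tsirelson space with its unit vectors exists (a Banach space `T` with a sequence `e` whose span is
dense and on whose finite linear combinations the norm satisfies the implicit equation of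
Figiel and Johnson), and for every such realisation `(T, e)` one has `P(T) = 2`; moreover the
supremum defining `P(T)` is attained: the closed unit ball of `T` contains an infinite
`2`-separated set. -/
theorem result :
    (∃ (T : Type) (_ : NormedAddCommGroup T) (_ : NormedSpace ℝ T) (e : ℕ → T),
      IsTsirelson T e) ∧
    ∀ (T : Type) [NormedAddCommGroup T] [NormedSpace ℝ T] (e : ℕ → T), IsTsirelson T e →
      sepConst T = 2 ∧ sepConst T ∈ SepSet T := by
  refine ⟨⟨TT, inferInstance, inferInstance, ee, isTsirelson_TT⟩, ?_⟩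
  intro T _ _ e h
  have h1 : IsGreatest (SepSet T) 2 := ⟨two_mem h, fun _ hl => le_two_of_mem hl⟩
  have h2 : sepConst T = 2 := h1.csSup_eq
  refine ⟨h2, ?_⟩
  rw [h2]
  exact two_mem h

end Pool.Agent.Results.MP_6d986f_an.TsirelsonKottman
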